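import Mathlib

set_option autoImplicit false
set_option linter.unusedSectionVars false

/-! Valuations at infinity of function fields `k(x)(y)`. -/

open Polynomial

namespace Pool.Agent.R414.CN

variable {k : Type} [Field k] {F : Type} [Field F] [Algebra k[X] F]

/-- `V` is a place at infinity: a valuation ring of `F` that contains `k` but not `x`. -/
def Inf (k : Type) [Field k] {F : Type} [Field F] [Algebra k[X] F] (V : ValuationSubring F) : Prop :=
  (∀ c : k, algebraMap k[X] F (C c) ∈ V) ∧ algebraMap k[X] F X ∉ V

variable {V : ValuationSubring F} (hV : Inf k V)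

include hV

lemma one_lt_x : 1 < V.valuation (algebraMap k[X] F X) := by
  rw [← not_le, V.valuation_le_one_iff]
  exact hV.2

lemma val_const {c : k} (hc : c ≠ 0) : V.valuation (algebraMap k[X] F (C c)) = 1 := by
  have h1 := (V.valuation_le_one_iff _).2 (hV.1 c)
  have h2 := (V.valuation_le_one_iff _).2 (hV.1 c⁻¹)
  have h3 : V.valuation (algebraMap k[X] F (C c)) * V.valuation (algebraMap k[X] F (C c⁻¹)) = 1 := by
    rw [← map_mul, ← map_mul, ← C_mul, mul_inv_cancel₀ hc, C_1, map_one, map_one]
  apply le_antisymm h1
  rw [← h3]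
  calc _ ≤ V.valuation (algebraMap k[X] F (C c)) * 1 := by gcongr
    _ = _ := mul_one _

lemma val_poly : ∀ (n : ℕ) (P : k[X]), P ≠ 0 → P.natDegree = n →
    V.valuation (algebraMap k[X] F P) = V.valuation (algebraMap k[X] F X) ^ n := by
  intro n
  induction n using Nat.strong_induction_on with
  | _ n ih =>
    intro P hP hn
    have hx := one_lt_x hV
    have h1 : P = C P.leadingCoeff * X ^ n + P.eraseLead := by
      rw [← hn, add_comm]; exact (eraseLead_add_C_mul_X_pow P).symm
    have h2 : V.valuation (algebraMap k[X] F (C P.leadingCoeff * X ^ n)) =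
        V.valuation (algebraMap k[X] F X) ^ n := by
      rw [map_mul, map_mul, val_const hV (leadingCoeff_ne_zero.2 hP), one_mul, map_pow, map_pow]
    rw [h1, map_add, Valuation.map_add_eq_of_lt_left, h2]
    rw [h2]
    by_cases h3 : P.eraseLead = 0
    · rw [h3, map_zero, map_zero]
      exact pow_pos (zero_lt_one.trans hx) n
    · have h4 : P.eraseLead.natDegree < n := by
        rcases Nat.lt_or_ge P.eraseLead.natDegree n with h | h
        · exact h
        · exfalso
          have h5 := eraseLead_natDegree_le P
          have h6 : n = 0 := by omega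
          rw [h6] at hn
          rw [eq_C_of_natDegree_eq_zero hn] at h3
          simp at h3
      rw [ih _ h4 _ h3 rfl]
      exact pow_lt_pow_right₀ hx h4

variable [Algebra (RatFunc k) F] [IsScalarTower k[X] (RatFunc k) F]

lemma x_ne : V.valuation (algebraMap k[X] F X) ≠ 0 := by
  have := one_lt_x hV
  intro h
  rw [h] at this
  exact absurd this (by simp)

lemma val_rat {q : RatFunc k} (hq : q ≠ 0) : V.valuation (algebraMap (RatFunc k) F q) =
    V.valuation (algebraMap k[X] F X) ^ q.intDegree := by
  have hx := one_lt_x hV
  have hx0 := x_ne hV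
  have h1 : algebraMap k[X] F q.num = algebraMap (RatFunc k) F q * algebraMap k[X] F q.denom := by
    rw [IsScalarTower.algebraMap_apply k[X] (RatFunc k) F,
      IsScalarTower.algebraMap_apply k[X] (RatFunc k) F, ← map_mul]
    congr 1
    have := RatFunc.num_div_denom q
    rw [div_eq_iff] at this
    · exact this
    · exact RatFunc.algebraMap_ne_zero q.denom_ne_zero
  have h2 := congrArg V.valuation h1
  rw [map_mul, val_poly hV _ _ (RatFunc.num_ne_zero hq) rfl, val_poly hV _ _ q.denom_ne_zero rfl] at h2
  rw [RatFunc.intDegree, zpow_sub₀ hx0, zpow_natCast, zpow_natCast, h2,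
    mul_div_cancel_right₀ _ (pow_ne_zero _ hx0)]

end Pool.Agent.R414.CN
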