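import Pool.Agent.R414.CN.A

set_option autoImplicit false
set_option linter.unusedSectionVars false

/-! The function field of `y ^ 11 = x (8 - x) ^ 2` over the field with `199` elements. -/

open Polynomial

namespace Pool.Agent.R414.CN

instance fact199 : Fact (Nat.Prime 199) := ⟨by norm_num⟩

abbrev kk : Type := ZMod 199

noncomputable def fX : kk[X] := X * (C 8 - X) ^ 2

lemma natDegree_lin : (C (8 : kk) - X).natDegree = 1 := by
  rw [← neg_sub, natDegree_neg, natDegree_X_sub_C]

lemma natDegree_fX : fX.natDegree = 3 := by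
  unfold fX
  rw [natDegree_mul, natDegree_pow, natDegree_X, natDegree_lin]
  · exact X_ne_zero
  · apply pow_ne_zero
    intro h
    have := natDegree_lin
    rw [h] at this
    simp at this

lemma fX_ne : fX ≠ 0 := by
  intro h
  have := natDegree_fX
  rw [h] at this
  simp at this

lemma int_of_pow {b : RatFunc kk} {P : kk[X]} {n : ℕ} (hn : 0 < n)
    (h : b ^ n = algebraMap kk[X] (RatFunc kk) P) : ∃ Q : kk[X], algebraMap kk[X] (RatFunc kk) Q = b := by
  apply IsIntegrallyClosed.isIntegral_iff.1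
  apply IsIntegral.of_pow hn
  rw [h]
  exact isIntegral_algebraMap

lemma not_pow (b : RatFunc kk) : b ^ 11 ≠ algebraMap kk[X] (RatFunc kk) fX := by
  intro h
  obtain ⟨Q, hQ⟩ := int_of_pow (by norm_num) h
  have h1 : Q ^ 11 = fX := by
    apply IsFractionRing.injective kk[X] (RatFunc kk)
    rw [map_pow, hQ, h]
  have h2 := natDegree_fX
  rw [← h1, natDegree_pow] at h2
  omega

/-- the polynomial defining the function field -/
noncomputable abbrev defP : (RatFunc kk)[X] := X ^ 11 - C (algebraMap kk[X] (RatFunc kk) fX)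

instance irrF : Fact (Irreducible defP) :=
  ⟨X_pow_sub_C_irreducible_of_prime (by norm_num) not_pow⟩

abbrev FF : Type := AdjoinRoot defP

noncomputable def y : FF := AdjoinRoot.root defP

lemma y_pow : y ^ 11 = algebraMap kk[X] FF fX := by
  have h := AdjoinRoot.eval₂_root defP
  simp only [eval₂_sub, eval₂_pow, eval₂_X, eval₂_C] at h
  exact sub_eq_zero.1 h

lemma y_ne : y ≠ 0 := by
  intro h
  have h1 := y_pow
  rw [h, zero_pow (by norm_num)] at h1
  have h2 : algebraMap (RatFunc kk) FF (algebraMap kk[X] (RatFunc kk) fX) = 0 := h1.symm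
  rw [map_eq_zero] at h2
  exact fX_ne (IsFractionRing.injective kk[X] (RatFunc kk) (by rw [h2, map_zero]))

lemma decomp (g : FF) : ∃ c : ℕ → RatFunc kk,
    g = ∑ i ∈ Finset.range 11, algebraMap (RatFunc kk) FF (c i) * y ^ i := by
  obtain ⟨q, rfl⟩ := AdjoinRoot.mk_surjective g
  have hm : defP.Monic := monic_X_pow_sub_C _ (by norm_num)
  have hd : defP.natDegree = 11 := natDegree_X_pow_sub_C
  refine ⟨fun i => (q %ₘ defP).coeff i, ?_⟩
  have h1 : AdjoinRoot.mk defP q = AdjoinRoot.mk defP (q %ₘ defP) := by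
    rw [AdjoinRoot.mk_eq_mk]
    refine ⟨q /ₘ defP, ?_⟩
    have := modByMonic_add_div q defP
    linear_combination this.symm
  have h2 : (q %ₘ defP).natDegree < 11 := by
    have := natDegree_modByMonic_lt q hm (by
      intro h
      have := hd
      rw [h] at this
      simp at this)
    rwa [hd] at this
  rw [h1]
  conv_lhs => rw [(q %ₘ defP).as_sum_range' 11 h2]
  rw [map_sum]
  apply Finset.sum_congr rfl
  intro i _
  rw [← C_mul_X_pow_eq_monomial, map_mul, map_pow, AdjoinRoot.mk_C, AdjoinRoot.mk_X]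
  rfl

section val

variable {V : ValuationSubring FF} (hV : Inf kk V)

include hV

lemma val_y : V.valuation y ^ 11 = V.valuation (algebraMap kk[X] FF X) ^ 3 := by
  rw [← map_pow, y_pow, val_poly hV _ _ fX_ne rfl, natDegree_fX]

lemma val_comp {c : RatFunc kk} (hc : c ≠ 0) (i : ℕ) :
    V.valuation (algebraMap (RatFunc kk) FF c * y ^ i) ^ 11 =
      V.valuation (algebraMap kk[X] FF X) ^ (11 * c.intDegree + 3 * i) := by
  have hx0 := x_ne hV
  rw [map_mul, mul_pow, val_rat hV hc, map_pow, ← pow_mul, mul_comm i 11, pow_mul, val_y hV,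
    zpow_add₀ hx0, ← zpow_natCast, ← zpow_mul, ← pow_mul, ← zpow_natCast]
  push_cast
  rw [mul_comm c.intDegree 11]

lemma zpow_lt_iff (m n : ℤ) : V.valuation (algebraMap kk[X] FF X) ^ m <
    V.valuation (algebraMap kk[X] FF X) ^ n ↔ m < n :=
  zpow_lt_zpow_iff_right₀ (one_lt_x hV)

lemma val_lt {c d : RatFunc kk} (hc : c ≠ 0) (hd : d ≠ 0) (i j : ℕ) :
    V.valuation (algebraMap (RatFunc kk) FF c * y ^ i) <
      V.valuation (algebraMap (RatFunc kk) FF d * y ^ j) ↔
    11 * c.intDegree + 3 * (i : ℤ) < 11 * d.intDegree + 3 * (j : ℤ) := by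
  rw [← zpow_lt_iff hV, ← val_comp hV hc, ← val_comp hV hd]
  exact (pow_lt_pow_iff_left₀ zero_le zero_le (by norm_num)).symm

/-- the valuation of an element in terms of its components -/
lemma val_sum0 {g : FF} {c : ℕ → RatFunc kk} (hne0 : ∃ i < 11, c i ≠ 0)
    (hc : g = ∑ i ∈ Finset.range 11, algebraMap (RatFunc kk) FF (c i) * y ^ i) :
    ∃ i < 11, c i ≠ 0 ∧ V.valuation g = V.valuation (algebraMap (RatFunc kk) FF (c i) * y ^ i) ∧
      V.valuation g ^ 11 = V.valuation (algebraMap kk[X] FF X) ^ (11 * (c i).intDegree + 3 * i) ∧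
      ∀ j < 11, j ≠ i → c j ≠ 0 → 11 * (c j).intDegree + 3 * (j : ℤ) < 11 * (c i).intDegree + 3 * i := by
  classical
  set s := (Finset.range 11).filter fun i => c i ≠ 0 with hs
  have hne : s.Nonempty := by
    obtain ⟨i, hi, hci⟩ := hne0
    exact ⟨i, by rw [hs, Finset.mem_filter, Finset.mem_range]; exact ⟨hi, hci⟩⟩
  obtain ⟨i, hi, hmax⟩ := Finset.exists_max_image s
    (fun i => 11 * (c i).intDegree + 3 * (i : ℤ)) hne
  rw [hs, Finset.mem_filter, Finset.mem_range] at hi
  have hlt : ∀ j < 11, j ≠ i → c j ≠ 0 →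
      11 * (c j).intDegree + 3 * (j : ℤ) < 11 * (c i).intDegree + 3 * i := by
    intro j hj hji hcj
    have h1 := hmax j (by rw [hs, Finset.mem_filter, Finset.mem_range]; exact ⟨hj, hcj⟩)
    rcases lt_or_eq_of_le h1 with h2 | h2
    · exact h2
    · exfalso
      omega
  have hval : V.valuation g = V.valuation (algebraMap (RatFunc kk) FF (c i) * y ^ i) := by
    conv_lhs => rw [hc]
    apply Valuation.map_sum_eq_of_lt
    · exact Finset.mem_range.2 hi.1
    · intro j hj
      rw [Finset.mem_sdiff, Finset.mem_range, Finset.mem_singleton] at hj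
      by_cases hcj : c j = 0
      · rw [hcj, map_zero, zero_mul, map_zero, zero_lt_iff]
        rw [Ne, Valuation.zero_iff]
        refine mul_ne_zero ?_ (pow_ne_zero _ y_ne)
        rw [Ne, map_eq_zero]
        exact hi.2
      · rw [val_lt hV hcj hi.2]
        exact hlt j hj.1 hj.2 hcj
  refine ⟨i, hi.1, hi.2, hval, ?_, hlt⟩
  rw [hval, val_comp hV hi.2]

lemma val_sum {g : FF} (hg : g ≠ 0) {c : ℕ → RatFunc kk}
    (hc : g = ∑ i ∈ Finset.range 11, algebraMap (RatFunc kk) FF (c i) * y ^ i) :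
    ∃ i < 11, c i ≠ 0 ∧ V.valuation g = V.valuation (algebraMap (RatFunc kk) FF (c i) * y ^ i) ∧
      V.valuation g ^ 11 = V.valuation (algebraMap kk[X] FF X) ^ (11 * (c i).intDegree + 3 * i) ∧
      ∀ j < 11, j ≠ i → c j ≠ 0 → 11 * (c j).intDegree + 3 * (j : ℤ) < 11 * (c i).intDegree + 3 * i := by
  apply val_sum0 hV _ hc
  by_contra h
  push Not at h
  apply hg
  rw [hc]
  apply Finset.sum_eq_zero
  intro i hi
  rw [h i (Finset.mem_range.1 hi), map_zero, zero_mul]

end val

end Pool.Agent.R414.CN
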