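import Pool.Agent.R414.CN.B

set_option autoImplicit false
set_option linter.unusedSectionVars false

/-! Projections to the components and integrality. -/

open Polynomial

namespace Pool.Agent.R414.CN

/-- a primitive root of unity of order 11 -/
def z : kk := 125

noncomputable def cst (c : kk) : FF := algebraMap kk[X] FF (C c)

lemma cst_eq (c : kk) : cst c = algebraMap (RatFunc kk) FF (algebraMap kk[X] (RatFunc kk) (C c)) := rfl

lemma cst_mul (a b : kk) : cst (a * b) = cst a * cst b := by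
  unfold cst; rw [C_mul, map_mul]

lemma cst_pow (a : kk) (n : ℕ) : cst (a ^ n) = cst a ^ n := by
  unfold cst; rw [C_pow, map_pow]

lemma root_sig (j : ℕ) : eval₂ (algebraMap (RatFunc kk) FF) (cst (z ^ j) * y) defP = 0 := by
  rw [eval₂_sub, eval₂_pow, eval₂_X, eval₂_C, mul_pow, ← cst_pow, ← pow_mul, mul_comm j 11, pow_mul]
  have h1 : (z : kk) ^ 11 = 1 := by decide +kernel
  rw [h1, one_pow, y_pow]
  unfold cst
  rw [C_1, map_one, one_mul]
  exact sub_self _

/-- the automorphism `y ↦ z ^ j y` -/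
noncomputable def sig (j : ℕ) : FF →ₐ[kk[X]] FF where
  toRingHom := AdjoinRoot.lift (algebraMap (RatFunc kk) FF) (cst (z ^ j) * y) (root_sig j)
  commutes' := by
    intro P
    show AdjoinRoot.lift (algebraMap (RatFunc kk) FF) (cst (z ^ j) * y) (root_sig j)
      (AdjoinRoot.of defP (algebraMap kk[X] (RatFunc kk) P)) = _
    rw [AdjoinRoot.lift_of]
    rfl

lemma sig_y (j : ℕ) : sig j y = cst (z ^ j) * y :=
  AdjoinRoot.lift_root (root_sig j)

lemma sig_rat (j : ℕ) (c : RatFunc kk) : sig j (algebraMap (RatFunc kk) FF c) =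
    algebraMap (RatFunc kk) FF c :=
  AdjoinRoot.lift_of (root_sig j)

lemma orth : ∀ i < 11, ∀ m < 11,
    ∑ j ∈ Finset.range 11, z ^ ((11 - i) * j) * (z ^ j) ^ m = if m = i then (11 : kk) else 0 := by
  decide +kernel

lemma cst_sum {ι : Type} (s : Finset ι) (f : ι → kk) : cst (∑ i ∈ s, f i) = ∑ i ∈ s, cst (f i) := by
  unfold cst
  rw [map_sum, map_sum]

lemma proj {c : ℕ → RatFunc kk} {i : ℕ} (hi : i < 11) :
    ∑ j ∈ Finset.range 11, cst (z ^ ((11 - i) * j)) *
      sig j (∑ m ∈ Finset.range 11, algebraMap (RatFunc kk) FF (c m) * y ^ m) =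
    cst 11 * (algebraMap (RatFunc kk) FF (c i) * y ^ i) := by
  simp only [map_sum, map_mul, map_pow, sig_y, sig_rat, mul_pow, Finset.mul_sum]
  rw [Finset.sum_comm]
  have h1 : ∀ m ∈ Finset.range 11, ∑ j ∈ Finset.range 11, cst (z ^ ((11 - i) * j)) *
      (algebraMap (RatFunc kk) FF (c m) * (cst (z ^ j) ^ m * y ^ m)) =
      cst (if m = i then (11 : kk) else 0) * (algebraMap (RatFunc kk) FF (c m) * y ^ m) := by
    intro m hm
    rw [← orth i hi m (Finset.mem_range.1 hm), cst_sum, Finset.sum_mul]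
    apply Finset.sum_congr rfl
    intro j _
    rw [cst_mul, cst_pow (z ^ j) m]
    ring
  rw [Finset.sum_congr rfl h1, Finset.sum_eq_single i]
  · rw [if_pos rfl]
  · intro m _ hm
    rw [if_neg hm]
    unfold cst
    simp
  · intro h
    exact absurd (Finset.mem_range.2 hi) h

lemma cst_int (c : kk) : IsIntegral kk[X] (cst c) := isIntegral_algebraMap

lemma comp_int {g : FF} (hg : IsIntegral kk[X] g) {c : ℕ → RatFunc kk}
    (hc : g = ∑ i ∈ Finset.range 11, algebraMap (RatFunc kk) FF (c i) * y ^ i) {i : ℕ} (hi : i < 11) :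
    IsIntegral kk[X] (algebraMap (RatFunc kk) FF (c i) * y ^ i) := by
  have h1 : IsIntegral kk[X] (cst 11 * (algebraMap (RatFunc kk) FF (c i) * y ^ i)) := by
    rw [← proj hi, ← hc]
    exact IsIntegral.sum _ fun j _ => (cst_int _).mul (hg.map (sig j))
  have h2 : algebraMap (RatFunc kk) FF (c i) * y ^ i =
      cst (11⁻¹) * (cst 11 * (algebraMap (RatFunc kk) FF (c i) * y ^ i)) := by
    rw [← mul_assoc, ← cst_mul]
    have : (11 : kk)⁻¹ * 11 = 1 := by decide +kernel
    rw [this]
    unfold cst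
    simp
  rw [h2]
  exact (cst_int _).mul h1

/-- the `11`-th power of a component is a polynomial -/
lemma comp_pow {g : FF} (hg : IsIntegral kk[X] g) {c : ℕ → RatFunc kk}
    (hc : g = ∑ i ∈ Finset.range 11, algebraMap (RatFunc kk) FF (c i) * y ^ i) {i : ℕ} (hi : i < 11) :
    ∃ P : kk[X], algebraMap kk[X] (RatFunc kk) P = c i ^ 11 * algebraMap kk[X] (RatFunc kk) fX ^ i := by
  apply IsIntegrallyClosed.isIntegral_iff.1
  have h1 := (comp_int hg hc hi).pow 11
  have h2 : (algebraMap (RatFunc kk) FF (c i) * y ^ i) ^ 11 =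
      algebraMap (RatFunc kk) FF (c i ^ 11 * algebraMap kk[X] (RatFunc kk) fX ^ i) := by
    rw [mul_pow, ← pow_mul, mul_comm i 11, pow_mul, y_pow, map_mul, map_pow, map_pow]
    rfl
  rw [h2] at h1
  exact (isIntegral_algebraMap_iff (algebraMap (RatFunc kk) FF).injective).1 h1

lemma intDegree_pow (c : RatFunc kk) (n : ℕ) (hc : c ≠ 0) : (c ^ n).intDegree = n * c.intDegree := by
  induction n with
  | zero => simp
  | succ n ih =>
    rw [pow_succ, RatFunc.intDegree_mul (pow_ne_zero _ hc) hc, ih]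
    push_cast
    ring

/-- the weight of a component of an integral element is nonnegative -/
lemma wt_nonneg {g : FF} (hg : IsIntegral kk[X] g) {c : ℕ → RatFunc kk}
    (hc : g = ∑ i ∈ Finset.range 11, algebraMap (RatFunc kk) FF (c i) * y ^ i) {i : ℕ} (hi : i < 11)
    (hci : c i ≠ 0) : 0 ≤ 11 * (c i).intDegree + 3 * (i : ℤ) := by
  obtain ⟨P, hP⟩ := comp_pow hg hc hi
  have h1 := congrArg RatFunc.intDegree hP
  have hf : algebraMap kk[X] (RatFunc kk) fX ≠ 0 := RatFunc.algebraMap_ne_zero fX_ne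
  rw [RatFunc.intDegree_polynomial, RatFunc.intDegree_mul (pow_ne_zero _ hci) (pow_ne_zero _ hf),
    intDegree_pow _ _ hci, intDegree_pow _ _ hf, RatFunc.intDegree_polynomial, natDegree_fX] at h1
  push_cast at h1
  omega

end Pool.Agent.R414.CN
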