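import Pool.Agent.R414.CN.C

set_option autoImplicit false
set_option linter.unusedSectionVars false

/-! The two-torsion ideal. -/

open Polynomial

namespace Pool.Agent.R414.CN

/-! ### the gap -/

lemma no_gap {g : FF} (hg : IsIntegral kk[X] g) {c : ℕ → RatFunc kk}
    (hc : g = ∑ i ∈ Finset.range 11, algebraMap (RatFunc kk) FF (c i) * y ^ i) :
    ¬ ∃ i < 11, c i ≠ 0 ∧ 11 * (c i).intDegree + 3 * (i : ℤ) = 5 := by
  rintro ⟨i, hi, hci, h5⟩
  have hi9 : i = 9 := by omega
  subst hi9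
  have hdeg : (c 9).intDegree = -2 := by push_cast at h5; omega
  obtain ⟨P, hP⟩ := comp_pow hg hc hi
  set e : RatFunc kk := c 9 * algebraMap kk[X] (RatFunc kk) fX with he
  have hf : algebraMap kk[X] (RatFunc kk) fX ≠ 0 := RatFunc.algebraMap_ne_zero fX_ne
  have he11 : e ^ 11 = algebraMap kk[X] (RatFunc kk) (P * fX ^ 2) := by
    rw [he, map_mul, hP, map_pow, mul_pow]
    ring
  obtain ⟨Q, hQ⟩ := int_of_pow (by norm_num) he11
  have hQ11 : Q ^ 11 = P * fX ^ 2 := by
    apply IsFractionRing.injective kk[X] (RatFunc kk)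
    rw [map_pow, hQ, he11]
  have hQdeg : Q.natDegree = 1 := by
    have h1 := congrArg RatFunc.intDegree hQ
    rw [RatFunc.intDegree_polynomial, he, RatFunc.intDegree_mul hci hf,
      RatFunc.intDegree_polynomial, natDegree_fX, hdeg] at h1
    push_cast at h1
    omega
  have h0 : Q.eval 0 = 0 := by
    have h1 := congrArg (eval 0) hQ11
    rw [eval_pow, eval_mul, eval_pow] at h1
    have h2 : fX.eval 0 = 0 := by simp [fX]
    rw [h2] at h1
    simpa using h1
  have h8 : Q.eval 8 = 0 := by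
    have h1 := congrArg (eval 8) hQ11
    rw [eval_pow, eval_mul, eval_pow] at h1
    have h2 : fX.eval 8 = 0 := by simp [fX]
    rw [h2] at h1
    simpa using h1
  have hQ0 : Q = 0 := by
    rw [eq_X_add_C_of_natDegree_le_one hQdeg.le] at h0 h8
    simp only [eval_add, eval_mul, eval_C, eval_X, mul_zero, zero_add] at h0 h8
    rw [h0, add_zero] at h8
    have h9 : Q.coeff 1 = 0 := by
      rcases mul_eq_zero.1 h8 with h | h
      · exact h
      · exfalso; revert h; decide +kernel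
    rw [eq_X_add_C_of_natDegree_le_one hQdeg.le, h9, h0]
    simp
  rw [hQ0] at hQdeg
  simp at hQdeg

/-! ### the place at infinity -/

/-- the homomorphism `X ↦ 1 / x` -/
noncomputable def psi : kk[X] →+* FF :=
  eval₂RingHom ((algebraMap kk[X] FF).comp C) (algebraMap kk[X] FF X)⁻¹

lemma algX_ne : algebraMap kk[X] FF X ≠ 0 := by
  intro h
  have h2 : algebraMap (RatFunc kk) FF (algebraMap kk[X] (RatFunc kk) X) = 0 := h
  rw [map_eq_zero] at h2
  exact X_ne_zero (IsFractionRing.injective kk[X] (RatFunc kk) (by rw [h2, map_zero]))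

lemma alg_inj : Function.Injective (algebraMap kk[X] FF) := by
  intro P Q h
  apply IsFractionRing.injective kk[X] (RatFunc kk)
  exact (algebraMap (RatFunc kk) FF).injective h

lemma psi_ne (P : kk[X]) : psi P * (algebraMap kk[X] FF X)⁻¹ ≠ 1 := by
  intro h
  have h1 : psi P = algebraMap kk[X] FF X := by
    field_simp [algX_ne] at h
    exact h
  have inv : Invertible (algebraMap kk[X] FF X)⁻¹ := invertibleOfNonzero (inv_ne_zero algX_ne)
  have h3 := eval₂_reverse_mul_pow ((algebraMap kk[X] FF).comp C) ((algebraMap kk[X] FF X)⁻¹) P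
  have h4 : ⅟((algebraMap kk[X] FF X)⁻¹) = algebraMap kk[X] FF X := by
    rw [invOf_eq_inv, inv_inv]
  rw [h4] at h3
  have h5 : eval₂ ((algebraMap kk[X] FF).comp C) (algebraMap kk[X] FF X) P.reverse =
      algebraMap kk[X] FF P.reverse := by
    rw [← hom_eval₂, eval₂_C_X]
  have h6 : eval₂ ((algebraMap kk[X] FF).comp C) (algebraMap kk[X] FF X)⁻¹ P =
    algebraMap kk[X] FF X := h1
  rw [h5, h6] at h3
  have h7 : P.reverse = X ^ (P.natDegree + 1) := by
    apply alg_inj
    have h8 : algebraMap kk[X] FF P.reverse =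
        (algebraMap kk[X] FF P.reverse * (algebraMap kk[X] FF X)⁻¹ ^ P.natDegree) *
          algebraMap kk[X] FF X ^ P.natDegree := by
      rw [inv_pow, mul_assoc, inv_mul_cancel₀ (pow_ne_zero _ algX_ne), mul_one]
    rw [h8, h3, map_pow, pow_succ']
  have h8 := reverse_natDegree_le P
  rw [h7, natDegree_X_pow] at h8
  omega

lemma exists_inf : ∃ V : ValuationSubring FF, Inf kk V := by
  set A : Subring FF := psi.range with hA
  have hx : (algebraMap kk[X] FF X)⁻¹ ∈ A := ⟨X, by simp [psi]⟩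
  set I : Ideal A := Ideal.span {⟨_, hx⟩} with hI
  have hI1 : I ≠ ⊤ := by
    intro h
    rw [Ideal.eq_top_iff_one, hI, Ideal.mem_span_singleton'] at h
    obtain ⟨⟨_, P, rfl⟩, hP⟩ := h
    exact psi_ne P (congrArg Subtype.val hP)
  obtain ⟨V, hV1, hV2⟩ := Ideal.image_subset_nonunits_valuationSubring I hI1
  refine ⟨V, ?_, ?_⟩
  · intro c
    apply hV1
    exact ⟨C c, by simp [psi]⟩
  · intro h
    have h1 : (algebraMap kk[X] FF X)⁻¹ ∈ V.nonunits :=
      hV2 ⟨⟨_, hx⟩, Ideal.subset_span rfl, rfl⟩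
    rw [ValuationSubring.mem_nonunits_iff] at h1
    have h2 := (V.valuation_le_one_iff _).2 h
    rw [map_inv₀] at h1
    have h3 : V.valuation (algebraMap kk[X] FF X) ≠ 0 := by
      rw [Ne, Valuation.zero_iff]; exact algX_ne
    rw [inv_lt_one₀ (zero_lt_iff.2 h3)] at h1
    exact absurd h2 (not_le.2 h1)

section val

variable {V : ValuationSubring FF} (hV : Inf kk V)

include hV

lemma one_le_of_int {g : FF} (hg : IsIntegral kk[X] g) (h0 : g ≠ 0) : 1 ≤ V.valuation g := by
  obtain ⟨c, hc⟩ := decomp g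
  obtain ⟨i, hi, hci, -, h1, -⟩ := val_sum hV h0 hc
  have h2 := wt_nonneg hg hc hi hci
  by_contra h3
  rw [not_le] at h3
  have h4 : V.valuation g ^ 11 < 1 := pow_lt_one₀ zero_le h3 (by norm_num)
  rw [h1, ← zpow_zero (V.valuation (algebraMap kk[X] FF X)), zpow_lt_iff hV] at h4
  omega

end val

/-! ### the functions -/

noncomputable def w : FF := y ^ 6 * (algebraMap kk[X] FF (C 8 - X))⁻¹

lemma lin_ne : (C 8 - X : kk[X]) ≠ 0 := by
  intro h
  have := natDegree_lin
  rw [h] at this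
  simp at this

lemma alg_lin_ne : algebraMap kk[X] FF (C 8 - X) ≠ 0 := by
  intro h
  exact lin_ne (alg_inj (by rw [h, map_zero]))

lemma alg_nat (n : ℕ) : algebraMap kk[X] FF (C (n : kk)) = (n : FF) := by
  rw [map_natCast, map_natCast]

lemma alg8 : algebraMap kk[X] FF (C (8 : kk)) = 8 := alg_nat 8

lemma h199 : (199 : FF) = 0 := by
  have h : algebraMap kk[X] FF (C ((199 : ℕ) : kk)) = 0 := by
    have : ((199 : ℕ) : kk) = 0 := by decide +kernel
    rw [this, C_0, map_zero]
  rw [alg_nat] at h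
  exact h

lemma y_pow' : y ^ 11 = (8 - algebraMap kk[X] FF (C 8 - X)) * algebraMap kk[X] FF (C 8 - X) ^ 2 := by
  rw [y_pow, fX, map_mul, map_pow, map_sub]
  rw [alg8]
  ring

lemma w_cube : w ^ 3 = 8 * y * w - y ^ 7 := by
  have h1 := y_pow'
  have h2 := alg_lin_ne
  unfold w
  generalize algebraMap kk[X] FF (C 8 - X) = t at h1 h2
  field_simp
  linear_combination y ^ 7 * h1

lemma y_int : IsIntegral kk[X] y := by
  apply IsIntegral.of_pow (n := 11) (by norm_num)
  rw [y_pow]
  exact isIntegral_algebraMap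

lemma w_int : IsIntegral kk[X] w := by
  have h1 : IsIntegral (integralClosure kk[X] FF) w := by
    refine ⟨X ^ 3 + (C (⟨y ^ 7, y_int.pow 7⟩ : integralClosure kk[X] FF) -
      C (⟨algebraMap kk[X] FF (C 8) * y, isIntegral_algebraMap.mul y_int⟩ :
        integralClosure kk[X] FF) * X), ?_, ?_⟩
    · apply monic_X_pow_add
      compute_degree
      norm_num
    · simp only [eval₂_add, eval₂_sub, eval₂_mul, eval₂_pow, eval₂_X, eval₂_C]
      show w ^ 3 + (y ^ 7 - algebraMap kk[X] FF (C 8) * y * w) = 0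
      rw [alg8, w_cube]
      ring
  exact isIntegral_trans w h1

noncomputable def h : FF := 85 + 147 * w + 120 * y + y * w + 125 * y ^ 2 + 184 * y ^ 3

noncomputable def S : FF := 63 + 116 * y + 103 * y ^ 2 + 197 * y ^ 3 + 117 * y ^ 4 + y ^ 5

noncomputable def h' : FF := 7225 + (-12495)*w + 21609*w^2 + (-152472)*y + (-17725)*y*w +
  294*y*w^2 + 33298*y^2 + (-18495)*y^2*w + 1*y^2*w^2 + 61272*y^3 + (-27173)*y^3*w + 59785*y^4 +
  (-184)*y^4*w + 46000*y^5 + 33856*y^6

noncomputable def al : FF := 146 + 118*w + 154*w^2 + 100*y + 86*y*w + 42*y*w^2 + 162*y^2 +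
  108*y^2*w + 47*y^2*w^2 + 57*y^3

noncomputable def v : FF := 32 + 63*w + 176*w^2 + 101*y + 64*y*w + 126*y*w^2 + 31*y^2 +
  192*y^2*w + 145*y^3 + 76*y^3*w + 113*y^4 + 87*y^4*w + 197*y^5 + 111*y^6

noncomputable def ga : FF := 155 + 121*w + 87*w^2 + 79*y + 133*y*w

lemma h_mul : h * h' = - S ^ 2 := by
  unfold h h' S
  linear_combination (3176523 + 64827*y + 441*y^2 + 1*y^3) * w_cube +
    (3106 + (-60696)*y + (-73049)*y^2 + (-42598)*y^3 + (-57222)*y^4 + 125316*y^5 + 136724*y^6 +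
      88859*y^7 + 63544*y^8 + 31303*y^9) * h199

lemma bezout : al * h + v * S + ga * h' = 1 := by
  unfold al v ga h h' S
  linear_combination (1550262 + 1879983*w + 1373824*y + 25578*y*w + (-1562891)*y^2 + 87*y^2*w +
    (-2363871)*y^3 + (-16008)*y^4) * w_cube + (5700 + (-5161)*w + 12601*w^2 + (-115710)*y +
    (-44085)*y*w + (-1085)*y*w^2 + (-34287)*y^2 + (-47447)*y^2*w + (-7002)*y^2*w^2 + 61411*y^3 +
    (-31324)*y^3*w + (-1655)*y^3*w^2 + 71374*y^4 + (-28239)*y^4*w + 8161*y^4*w^2 + 60042*y^5 +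
    67628*y^5*w + 20106*y^5*w^2 + 45055*y^6 + 51563*y^6*w + 14802*y^6*w^2 + 6014*y^7 +
    13312*y^7*w + (-6584)*y^8 + (-77)*y^8*w + 8080*y^9 + 11945*y^10 + 81*y^11) * h199

end Pool.Agent.R414.CN
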