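import Pool.Agent.R414.CN.D

set_option autoImplicit false
set_option linter.unusedSectionVars false

/-! The class number is even. -/

open Polynomial

namespace Pool.Agent.R414.CN

instance finF : FiniteDimensional (RatFunc kk) FF :=
  (monic_X_pow_sub_C _ (by norm_num)).finite_adjoinRoot

lemma prim : IsPrimitiveRoot (algebraMap kk[X] (RatFunc kk) (C z)) 11 := by
  have h1 : IsPrimitiveRoot z 11 := by
    have hp : Nat.Prime 11 := by norm_num
    have : Fact (Nat.Prime 11) := ⟨hp⟩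
    have h2 : z ^ 11 = 1 := by decide +kernel
    have h3 : z ≠ 1 := by decide +kernel
    have h4 : orderOf z = 11 := orderOf_eq_prime h2 h3
    rw [← h4]
    exact IsPrimitiveRoot.orderOf z
  exact (h1.map_of_injective (f := (C : kk →+* kk[X])) C_injective).map_of_injective
    (f := algebraMap kk[X] (RatFunc kk)) (IsFractionRing.injective kk[X] (RatFunc kk))

instance sepF : Algebra.IsSeparable (RatFunc kk) FF := by
  have h1 : (primitiveRoots 11 (RatFunc kk)).Nonempty :=
    ⟨_, (mem_primitiveRoots (by norm_num)).2 prim⟩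
  have h2 := isSplittingField_AdjoinRoot_X_pow_sub_C h1 irrF.out
  have h11 : ((11 : ℕ) : RatFunc kk) ≠ 0 := by
    intro h
    have h3 : algebraMap kk[X] (RatFunc kk) (C ((11 : ℕ) : kk)) = 0 := by
      rw [map_natCast, map_natCast]; exact h
    have h4 : (C ((11 : ℕ) : kk)) = (0 : kk[X]) :=
      IsFractionRing.injective kk[X] (RatFunc kk) (by rw [h3, map_zero])
    rw [C_eq_zero] at h4
    revert h4
    decide +kernel
  have h3 : (defP : (RatFunc kk)[X]).Separable := by
    apply separable_X_pow_sub_C _ h11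
    exact RatFunc.algebraMap_ne_zero fX_ne
  have h4 : IsGalois (RatFunc kk) FF :=
    @IsGalois.of_separable_splitting_field (RatFunc kk) _ FF _ _ defP h2 h3
  exact h4.to_isSeparable

noncomputable abbrev A : Subalgebra kk[X] FF := FunctionField.ringOfIntegers kk FF

lemma h_int : IsIntegral kk[X] h := by
  have hy := y_int
  have hw := w_int
  have hn : ∀ n : ℕ, IsIntegral kk[X] (n : FF) := fun n => by
    rw [← alg_nat]; exact isIntegral_algebraMap
  unfold h
  have e1 := hn 85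
  have e2 := (hn 147).mul hw
  have e3 := (hn 120).mul hy
  have e4 := hy.mul hw
  have e5 := (hn 125).mul (hy.pow 2)
  have e6 := (hn 184).mul (hy.pow 3)
  exact ((((e1.add e2).add e3).add e4).add e5).add e6

/-- the algebra generated by `y` and `w` -/
lemma int_of_mem {g : FF} (hg : g ∈ Algebra.adjoin ℤ {y, w}) : IsIntegral kk[X] g := by
  have h1 : Algebra.adjoin ℤ {y, w} ≤ (integralClosure kk[X] FF).restrictScalars ℤ := by
    apply Algebra.adjoin_le
    rintro x (rfl | rfl)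
    · exact y_int
    · exact w_int
  exact h1 hg

lemma mem_y : y ∈ Algebra.adjoin ℤ {y, w} := Algebra.subset_adjoin (by simp)
lemma mem_w : w ∈ Algebra.adjoin ℤ {y, w} := Algebra.subset_adjoin (by simp)

lemma mem_all : S ∈ Algebra.adjoin ℤ {y, w} ∧ h' ∈ Algebra.adjoin ℤ {y, w} ∧
    al ∈ Algebra.adjoin ℤ {y, w} ∧ v ∈ Algebra.adjoin ℤ {y, w} ∧ ga ∈ Algebra.adjoin ℤ {y, w} := by
  set B := Algebra.adjoin ℤ {y, w} with hB
  obtain ⟨yy, hyy⟩ : ∃ yy : B, (yy : FF) = y := ⟨⟨y, mem_y⟩, rfl⟩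
  obtain ⟨ww, hww⟩ : ∃ ww : B, (ww : FF) = w := ⟨⟨w, mem_w⟩, rfl⟩
  refine ⟨?_, ?_, ?_, ?_, ?_⟩
  · have : S = ((63 + 116 * yy + 103 * yy ^ 2 + 197 * yy ^ 3 + 117 * yy ^ 4 + yy ^ 5 : B) : FF) := by
      push_cast
      rw [hyy]; rfl
    rw [this]; exact Subtype.property _
  · have : h' = ((7225 + (-12495)*ww + 21609*ww^2 + (-152472)*yy + (-17725)*yy*ww +
        294*yy*ww^2 + 33298*yy^2 + (-18495)*yy^2*ww + 1*yy^2*ww^2 + 61272*yy^3 + (-27173)*yy^3*ww +
        59785*yy^4 + (-184)*yy^4*ww + 46000*yy^5 + 33856*yy^6 : B) : FF) := by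
      push_cast
      rw [hyy, hww]; rfl
    rw [this]; exact Subtype.property _
  · have : al = ((146 + 118*ww + 154*ww^2 + 100*yy + 86*yy*ww + 42*yy*ww^2 + 162*yy^2 +
        108*yy^2*ww + 47*yy^2*ww^2 + 57*yy^3 : B) : FF) := by
      push_cast
      rw [hyy, hww]; rfl
    rw [this]; exact Subtype.property _
  · have : v = ((32 + 63*ww + 176*ww^2 + 101*yy + 64*yy*ww + 126*yy*ww^2 + 31*yy^2 +
        192*yy^2*ww + 145*yy^3 + 76*yy^3*ww + 113*yy^4 + 87*yy^4*ww + 197*yy^5 + 111*yy^6 : B) : FF) := by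
      push_cast
      rw [hyy, hww]; rfl
    rw [this]; exact Subtype.property _
  · have : ga = ((155 + 121*ww + 87*ww^2 + 79*yy + 133*yy*ww : B) : FF) := by
      push_cast
      rw [hyy, hww]; rfl
    rw [this]; exact Subtype.property _

/-! ### the valuation of `h` -/

/-- the components of `h` -/
noncomputable def ch (i : ℕ) : RatFunc kk :=
  if i = 0 then algebraMap kk[X] (RatFunc kk) (C 85) else
  if i = 1 then algebraMap kk[X] (RatFunc kk) (C 120) else
  if i = 2 then algebraMap kk[X] (RatFunc kk) (C 125) else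
  if i = 3 then algebraMap kk[X] (RatFunc kk) (C 184) else
  if i = 6 then algebraMap kk[X] (RatFunc kk) (C 147) * (algebraMap kk[X] (RatFunc kk) (C 8 - X))⁻¹ else
  if i = 7 then (algebraMap kk[X] (RatFunc kk) (C 8 - X))⁻¹ else 0

lemma alg_cst (n : ℕ) : algebraMap (RatFunc kk) FF (algebraMap kk[X] (RatFunc kk) (C (n : kk))) = n :=
  alg_nat n

lemma h_eq : h = ∑ i ∈ Finset.range 11, algebraMap (RatFunc kk) FF (ch i) * y ^ i := by
  have e1 : algebraMap (RatFunc kk) FF (algebraMap kk[X] (RatFunc kk) (C 85)) = 85 := alg_nat 85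
  have e2 : algebraMap (RatFunc kk) FF (algebraMap kk[X] (RatFunc kk) (C 120)) = 120 := alg_nat 120
  have e3 : algebraMap (RatFunc kk) FF (algebraMap kk[X] (RatFunc kk) (C 125)) = 125 := alg_nat 125
  have e4 : algebraMap (RatFunc kk) FF (algebraMap kk[X] (RatFunc kk) (C 184)) = 184 := alg_nat 184
  have e5 : algebraMap (RatFunc kk) FF (algebraMap kk[X] (RatFunc kk) (C 147)) = 147 := alg_nat 147
  have e6 : algebraMap (RatFunc kk) FF (algebraMap kk[X] (RatFunc kk) (C 8 - X)) =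
    algebraMap kk[X] FF (C 8 - X) := rfl
  have f0 : ch 0 = algebraMap kk[X] (RatFunc kk) (C 85) := rfl
  have f1 : ch 1 = algebraMap kk[X] (RatFunc kk) (C 120) := rfl
  have f2 : ch 2 = algebraMap kk[X] (RatFunc kk) (C 125) := rfl
  have f3 : ch 3 = algebraMap kk[X] (RatFunc kk) (C 184) := rfl
  have f4 : ch 4 = 0 := rfl
  have f5 : ch 5 = 0 := rfl
  have f6 : ch 6 = algebraMap kk[X] (RatFunc kk) (C 147) *
    (algebraMap kk[X] (RatFunc kk) (C 8 - X))⁻¹ := rfl
  have f7 : ch 7 = (algebraMap kk[X] (RatFunc kk) (C 8 - X))⁻¹ := rfl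
  have f8 : ch 8 = 0 := rfl
  have f9 : ch 9 = 0 := rfl
  have f10 : ch 10 = 0 := rfl
  simp only [Finset.sum_range_succ, Finset.range_zero, Finset.sum_empty, f0, f1, f2, f3, f4, f5, f6,
    f7, f8, f9, f10, e1, e2, e3, e4, e5, e6, map_mul, map_inv₀, map_zero]
  unfold h w
  ring

lemma lin_ne' : algebraMap kk[X] (RatFunc kk) (C 8 - X) ≠ 0 := RatFunc.algebraMap_ne_zero lin_ne

lemma ch7 : ch 7 ≠ 0 ∧ (ch 7).intDegree = -1 := by
  have f7 : ch 7 = (algebraMap kk[X] (RatFunc kk) (C 8 - X))⁻¹ := rfl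
  rw [f7]
  refine ⟨inv_ne_zero lin_ne', ?_⟩
  rw [RatFunc.intDegree_inv, RatFunc.intDegree_polynomial, natDegree_lin]
  rfl

lemma ch_deg (i : ℕ) (hi : i < 11) (h7 : i ≠ 7) (h0 : ch i ≠ 0) :
    11 * (ch i).intDegree + 3 * (i : ℤ) < 10 := by
  have hC : ∀ c : kk, (algebraMap kk[X] (RatFunc kk) (C c)).intDegree = 0 := by
    intro c
    rw [RatFunc.intDegree_polynomial, natDegree_C]; rfl
  have key : ∀ i : ℕ, i < 11 → i ≠ 7 → ch i ≠ 0 → (i = 0 ∨ i = 1 ∨ i = 2 ∨ i = 3) ∨ i = 6 := by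
    intro i hi h7 h0
    by_contra h
    apply h0
    unfold ch
    rw [if_neg (by omega), if_neg (by omega), if_neg (by omega), if_neg (by omega),
      if_neg (by omega), if_neg (by omega)]
  rcases key i hi h7 h0 with (rfl | rfl | rfl | rfl) | rfl
  · have f : ch 0 = algebraMap kk[X] (RatFunc kk) (C 85) := rfl
    rw [f, hC]; norm_num
  · have f : ch 1 = algebraMap kk[X] (RatFunc kk) (C 120) := rfl
    rw [f, hC]; norm_num
  · have f : ch 2 = algebraMap kk[X] (RatFunc kk) (C 125) := rfl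
    rw [f, hC]; norm_num
  · have f : ch 3 = algebraMap kk[X] (RatFunc kk) (C 184) := rfl
    rw [f, hC]; norm_num
  · have f : ch 6 = algebraMap kk[X] (RatFunc kk) (C 147) *
      (algebraMap kk[X] (RatFunc kk) (C 8 - X))⁻¹ := rfl
    have h1 : algebraMap kk[X] (RatFunc kk) (C 147) ≠ 0 := by
      apply RatFunc.algebraMap_ne_zero
      rw [Ne, C_eq_zero]
      decide +kernel
    rw [f, RatFunc.intDegree_mul h1 (inv_ne_zero lin_ne'), hC, RatFunc.intDegree_inv,
      RatFunc.intDegree_polynomial, natDegree_lin]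
    norm_num

lemma h_ne : h ≠ 0 := by
  obtain ⟨V, hV⟩ := exists_inf
  obtain ⟨i, hi, hci, hv, -⟩ := val_sum0 hV ⟨7, by norm_num, ch7.1⟩ h_eq
  intro h0
  rw [h0, map_zero] at hv
  have h1 := hv.symm
  rw [Valuation.zero_iff, mul_eq_zero, map_eq_zero] at h1
  rcases h1 with h1 | h1
  · exact hci h1
  · exact pow_ne_zero _ y_ne h1

section val

variable {V : ValuationSubring FF} (hV : Inf kk V)

include hV

lemma val_h : V.valuation h ^ 11 = V.valuation (algebraMap kk[X] FF X) ^ (10 : ℤ) := by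
  obtain ⟨i, hi, hci, -, h3, hmax⟩ := val_sum hV h_ne h_eq
  have h7 : i = 7 := by
    by_contra h7
    have h4 := hmax 7 (by norm_num) (Ne.symm h7) ch7.1
    have h5 := ch_deg i hi h7 hci
    rw [ch7.2] at h4
    push_cast at h4
    omega
  subst h7
  rw [h3, ch7.2]
  norm_num

end val

/-! ### the class group -/

noncomputable def hA : A := ⟨h, h_int⟩
noncomputable def SA : A := ⟨S, int_of_mem mem_all.1⟩
noncomputable def h'A : A := ⟨h', int_of_mem mem_all.2.1⟩
noncomputable def alA : A := ⟨al, int_of_mem mem_all.2.2.1⟩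
noncomputable def vA : A := ⟨v, int_of_mem mem_all.2.2.2.1⟩
noncomputable def gaA : A := ⟨ga, int_of_mem mem_all.2.2.2.2⟩

lemma hA_mul : hA * h'A = - SA ^ 2 := Subtype.ext h_mul

lemma bezoutA : alA * hA + vA * SA + gaA * h'A = 1 := Subtype.ext bezout

noncomputable def I : Ideal A := Ideal.span {hA, SA}

lemma I_sq : I ^ 2 = Ideal.span {hA} := by
  apply le_antisymm
  · rw [pow_two, I, Ideal.span_mul_span, Ideal.span_le]
    intro x hx
    simp only [Set.mem_mul, Set.mem_insert_iff, Set.mem_singleton_iff] at hx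
    obtain ⟨a, ha, b, hb, rfl⟩ := hx
    rw [SetLike.mem_coe, Ideal.mem_span_singleton]
    rcases ha with rfl | rfl
    · exact Dvd.intro _ rfl
    · rcases hb with rfl | rfl
      · exact Dvd.intro_left _ rfl
      · refine ⟨-h'A, ?_⟩
        linear_combination hA_mul
  · rw [Ideal.span_le, Set.singleton_subset_iff, SetLike.mem_coe]
    have h1 : hA ∈ I := Ideal.subset_span (by simp)
    have h2 : SA ∈ I := Ideal.subset_span (by simp)
    have e : hA = alA * (hA * hA) + vA * (hA * SA) - gaA * (SA * SA) := by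
      linear_combination (-hA) * bezoutA + gaA * hA_mul
    rw [e, pow_two]
    refine Ideal.sub_mem _ (Ideal.add_mem _ ?_ ?_) ?_
    · exact Ideal.mul_mem_left _ _ (Ideal.mul_mem_mul h1 h1)
    · exact Ideal.mul_mem_left _ _ (Ideal.mul_mem_mul h1 h2)
    · exact Ideal.mul_mem_left _ _ (Ideal.mul_mem_mul h2 h2)

lemma I_ne_bot : I ≠ ⊥ := by
  intro h0
  have h1 : hA ∈ I := Ideal.subset_span (by simp)
  rw [h0, Ideal.mem_bot] at h1
  exact h_ne (congrArg Subtype.val h1)

lemma I_not_principal : ¬ Submodule.IsPrincipal I := by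
  rintro ⟨g, hg⟩
  have hg' : I = Ideal.span {g} := hg
  obtain ⟨V, hV⟩ := exists_inf
  have h1 := I_sq
  rw [hg', Ideal.span_singleton_pow, Ideal.span_singleton_eq_span_singleton] at h1
  obtain ⟨u, hu⟩ := h1
  have hg0 : (g : FF) ≠ 0 := by
    intro h0
    have : g = 0 := Subtype.ext h0
    apply I_ne_bot
    rw [hg', this]
    simp
  have hu1 : (((u : A) : FF)) * (((u⁻¹ : Aˣ) : A) : FF) = 1 := by
    have := congrArg (Subtype.val) (u.mul_inv)
    exact this
  have hu0 : ((u : A) : FF) ≠ 0 := left_ne_zero_of_mul_eq_one hu1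
  have hu0' : (((u⁻¹ : Aˣ) : A) : FF) ≠ 0 := right_ne_zero_of_mul_eq_one hu1
  have hv1 := one_le_of_int hV (u : A).2 hu0
  have hv2 := one_le_of_int hV ((u⁻¹ : Aˣ) : A).2 hu0'
  have hv3 := congrArg V.valuation hu1
  rw [map_mul, map_one] at hv3
  have hv4 : V.valuation ((u : A) : FF) = 1 := by
    apply le_antisymm _ hv1
    rw [← hv3]
    exact le_mul_of_one_le_right' hv2
  obtain ⟨c, hc⟩ := decomp (g : FF)
  obtain ⟨i, hi, hci, -, h2, -⟩ := val_sum hV hg0 hc
  apply no_gap g.2 hc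
  refine ⟨i, hi, hci, ?_⟩
  have h3 : h = (g : FF) ^ 2 * ((u : A) : FF) := by
    have := congrArg Subtype.val hu
    exact this.symm
  have h4 := val_h hV
  rw [h3, map_mul, hv4, mul_one, map_pow, ← pow_mul, mul_comm 2 11, pow_mul, h2, ← zpow_natCast,
    ← zpow_mul] at h4
  have h5 := zpow_right_injective₀ (zero_lt_one.trans (one_lt_x hV)) (one_lt_x hV).ne' h4
  push_cast at h5
  omega

theorem even_classNumber : Even (FunctionField.classNumber kk FF) := by
  classical
  have hI : I ∈ nonZeroDivisors (Ideal A) := mem_nonZeroDivisors_of_ne_zero I_ne_bot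
  set x : ClassGroup A := ClassGroup.mk0 ⟨I, hI⟩ with hx
  have h1 : x ≠ 1 := by
    rw [hx, Ne, ClassGroup.mk0_eq_one_iff]
    exact I_not_principal
  have h2 : x ^ 2 = 1 := by
    rw [hx, ← map_pow]
    have : (⟨I, hI⟩ : nonZeroDivisors (Ideal A)) ^ 2 = ⟨I ^ 2, pow_mem hI 2⟩ := rfl
    rw [this, ClassGroup.mk0_eq_one_iff, I_sq]
    exact ⟨hA, rfl⟩
  have h3 : orderOf x = 2 := orderOf_eq_prime h2 h1
  rw [even_iff_two_dvd, ← h3]
  unfold FunctionField.classNumber
  exact orderOf_dvd_card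

end Pool.Agent.R414.CN
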