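import Pool.Agent.R414.CN.E

set_option autoImplicit false
set_option linter.unusedSectionVars false

/-! The place at infinity is unique and rational. -/

open Polynomial

namespace Pool.Agent.R414.CN

lemma mem_iff_wt {V : ValuationSubring FF} (hV : Inf kk V) {g : FF} (hg : g ≠ 0) {c : ℕ → RatFunc kk}
    (hc : g = ∑ i ∈ Finset.range 11, algebraMap (RatFunc kk) FF (c i) * y ^ i) :
    g ∈ V ↔ ∀ i < 11, c i ≠ 0 → 11 * (c i).intDegree + 3 * (i : ℤ) ≤ 0 := by
  obtain ⟨i, hi, hci, -, h2, hmax⟩ := val_sum hV hg hc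
  have h3 : g ∈ V ↔ 11 * (c i).intDegree + 3 * (i : ℤ) ≤ 0 := by
    rw [← V.valuation_le_one_iff, ← pow_le_one_iff_of_nonneg zero_le (by norm_num : 11 ≠ 0), h2,
      ← zpow_zero (V.valuation (algebraMap kk[X] FF X)), ← not_lt, zpow_lt_iff hV, not_lt]
  rw [h3]
  constructor
  · intro h j hj hcj
    by_cases hji : j = i
    · rw [hji]; exact h
    · exact (hmax j hj hji hcj).le.trans h
  · intro h
    exact h i hi hci

lemma unique_inf {V V' : ValuationSubring FF} (hV : Inf kk V) (hV' : Inf kk V') : V = V' := by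
  ext g
  by_cases hg : g = 0
  · rw [hg]
    exact ⟨fun _ => V'.zero_mem, fun _ => V.zero_mem⟩
  · obtain ⟨c, hc⟩ := decomp g
    rw [mem_iff_wt hV hg hc, mem_iff_wt hV' hg hc]

/-- a rational function of degree zero is a constant up to a rational function of negative degree -/
lemma exists_const {q : RatFunc kk} (hq : q ≠ 0) (h0 : q.intDegree = 0) :
    ∃ c : kk, q - algebraMap kk[X] (RatFunc kk) (C c) = 0 ∨
      (q - algebraMap kk[X] (RatFunc kk) (C c)).intDegree < 0 := by
  have hd := q.denom_ne_zero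
  have hda : algebraMap kk[X] (RatFunc kk) q.denom ≠ 0 := RatFunc.algebraMap_ne_zero hd
  have hn := RatFunc.num_ne_zero hq
  have hdeg : q.num.natDegree = q.denom.natDegree := by
    unfold RatFunc.intDegree at h0
    omega
  refine ⟨q.num.leadingCoeff / q.denom.leadingCoeff, ?_⟩
  set c := q.num.leadingCoeff / q.denom.leadingCoeff with hc
  have hlc := leadingCoeff_ne_zero.2 hd
  have e : q - algebraMap kk[X] (RatFunc kk) (C c) =
      algebraMap kk[X] (RatFunc kk) (q.num - C c * q.denom) *
        (algebraMap kk[X] (RatFunc kk) q.denom)⁻¹ := by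
    rw [map_sub, map_mul, sub_mul, mul_assoc, mul_inv_cancel₀ hda, mul_one, ← div_eq_mul_inv,
      RatFunc.num_div_denom]
  by_cases hP : q.num - C c * q.denom = 0
  · left
    rw [e, hP, map_zero, zero_mul]
  · right
    rw [e, RatFunc.intDegree_mul (RatFunc.algebraMap_ne_zero hP) (inv_ne_zero hda),
      RatFunc.intDegree_inv, RatFunc.intDegree_polynomial, RatFunc.intDegree_polynomial]
    have h1 : (q.num - C c * q.denom).degree < q.num.degree := by
      apply degree_sub_lt
      · have hc0 : c ≠ 0 := by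
          rw [hc]; exact div_ne_zero (leadingCoeff_ne_zero.2 hn) hlc
        rw [degree_C_mul hc0, degree_eq_natDegree hn, degree_eq_natDegree hd, hdeg]
      · exact hn
      · rw [leadingCoeff_mul, leadingCoeff_C, hc, div_mul_cancel₀ _ hlc]
    have h2 := natDegree_lt_natDegree hP h1
    omega

lemma residue {V : ValuationSubring FF} (hV : Inf kk V) {g : FF} (hg : g ∈ V) :
    ∃ c : kk, g - algebraMap kk[X] FF (C c) ∈ V.nonunits := by
  obtain ⟨c, hc⟩ := decomp g
  by_cases hg0 : g = 0
  · refine ⟨0, ?_⟩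
    rw [C_0, map_zero, sub_zero, hg0, ValuationSubring.mem_nonunits_iff, map_zero]
    exact zero_lt_one
  have hwt := (mem_iff_wt hV hg0 hc).1 hg
  -- the constant
  obtain ⟨a, ha⟩ : ∃ a : kk, c 0 - algebraMap kk[X] (RatFunc kk) (C a) = 0 ∨
      (c 0 - algebraMap kk[X] (RatFunc kk) (C a)).intDegree < 0 := by
    by_cases h0 : c 0 = 0
    · exact ⟨0, Or.inl (by rw [h0, C_0, map_zero, sub_zero])⟩
    · have h1 := hwt 0 (by norm_num) h0
      push_cast at h1
      rcases lt_or_eq_of_le (show (c 0).intDegree ≤ 0 by omega) with h2 | h2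
      · exact ⟨0, Or.inr (by rw [C_0, map_zero, sub_zero]; exact h2)⟩
      · exact exists_const h0 h2
  refine ⟨a, ?_⟩
  set d : ℕ → RatFunc kk := fun i => if i = 0 then c 0 - algebraMap kk[X] (RatFunc kk) (C a) else c i
    with hd
  have hsum : g - algebraMap kk[X] FF (C a) =
      ∑ i ∈ Finset.range 11, algebraMap (RatFunc kk) FF (d i) * y ^ i := by
    rw [Finset.sum_range_succ', hc, Finset.sum_range_succ' _ 10]
    have e1 : ∀ i ∈ Finset.range 10, algebraMap (RatFunc kk) FF (d (i + 1)) * y ^ (i + 1) =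
        algebraMap (RatFunc kk) FF (c (i + 1)) * y ^ (i + 1) := by
      intro i _
      rw [hd]
      simp
    rw [Finset.sum_congr rfl e1]
    have e2 : d 0 = c 0 - algebraMap kk[X] (RatFunc kk) (C a) := rfl
    rw [e2, map_sub]
    have e3 : algebraMap (RatFunc kk) FF (algebraMap kk[X] (RatFunc kk) (C a)) =
      algebraMap kk[X] FF (C a) := rfl
    rw [e3]
    ring
  rw [ValuationSubring.mem_nonunits_iff]
  by_cases hz : g - algebraMap kk[X] FF (C a) = 0
  · rw [hz, map_zero]; exact zero_lt_one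
  obtain ⟨i, hi, hdi, -, h2, -⟩ := val_sum hV hz hsum
  have h3 : 11 * (d i).intDegree + 3 * (i : ℤ) < 0 := by
    by_cases hi0 : i = 0
    · subst hi0
      have e2 : d 0 = c 0 - algebraMap kk[X] (RatFunc kk) (C a) := rfl
      rw [e2] at hdi ⊢
      rcases ha with ha | ha
      · exact absurd ha hdi
      · push_cast; omega
    · have e2 : d i = c i := by rw [hd]; simp only [if_neg hi0]
      rw [e2] at hdi ⊢
      have := hwt i hi hdi
      omega
  rw [← pow_lt_one_iff_of_nonneg zero_le (by norm_num : 11 ≠ 0), h2,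
    ← zpow_zero (V.valuation (algebraMap kk[X] FF X)), zpow_lt_iff hV]
  exact h3

end Pool.Agent.R414.CN
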